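import Pool.Agent.Mg.Fa07d0e.G02e29f

open Pool.Agent.MP_a07d0e_nt

theorem Pool.Agent.Results.MP_a07d0e_nt.Disproof.result :
    ∀ j : ℕ, 2 ≤ j → (Sset j).Infinite :=
  fun _ hj => main hj
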